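import Pool.Agent.SOSC.Main

/-!
# Sum-of-squares of any constant degree does not refute k-colourability of sparse random graphs

For every degree `D` and every large number `k` of colours, for all average degrees `d` with
`2 k log k < d ≤ k ^ (1 + 1/(4D))` (a nonempty range below `(k - 1) ^ 2`), the random graph
`G(n, d/n)` is with high probability not `k`-colourable and has no degree `D` sum-of-squares
refutation of `k`-colourability.
-/

set_option autoImplicit false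

namespace Pool.Agent.Results.MP_211dc5_lc.AllConstantDegrees

open Filter Topology Pool.Agent.SOSC

/-- The range of average degrees is nonempty and below `(k - 1) ^ 2`. -/
theorem range_ok (D : ℕ) (hD : 1 ≤ D) : ∃ k₁ : ℕ, ∀ k : ℕ, k₁ ≤ k → 3 ≤ k ∧
    2 * k * Real.log k < (k : ℝ) ^ (1 + 1 / (4 * (D : ℝ))) ∧
    (k : ℝ) ^ (1 + 1 / (4 * (D : ℝ))) < ((k : ℝ) - 1) ^ 2 := by
  have hD0 : (0 : ℝ) < D := by exact_mod_cast hD
  have hD1 : (1 : ℝ) ≤ D := by exact_mod_cast hD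
  have hs : (0 : ℝ) < 1 / (4 * (D : ℝ)) := by positivity
  have h1 := (isLittleO_log_rpow_atTop hs).def (show (0 : ℝ) < 1 / 4 by norm_num)
  have h2 := tendsto_natCast_atTop_atTop (R := ℝ) |>.eventually h1
  obtain ⟨k₁, hk₁⟩ := eventually_atTop.1 h2
  refine ⟨max k₁ 16, fun k hk => ?_⟩
  have hk16 : 16 ≤ k := le_trans (le_max_right _ _) hk
  have hk16' : (16 : ℝ) ≤ k := by exact_mod_cast hk16
  have hk0 : (0 : ℝ) < k := by linarith
  have h3 := hk₁ k (le_trans (le_max_left _ _) hk)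
  refine ⟨by omega, ?_, ?_⟩
  · have hlog : 0 ≤ Real.log k := Real.log_nonneg (by linarith)
    have hpow : 0 < (k : ℝ) ^ (1 / (4 * (D : ℝ))) := Real.rpow_pos_of_pos hk0 _
    rw [Real.norm_of_nonneg hlog, Real.norm_of_nonneg hpow.le] at h3
    rw [Real.rpow_add hk0, Real.rpow_one]
    have h4 : 2 * Real.log k < (k : ℝ) ^ (1 / (4 * (D : ℝ))) := by linarith
    calc 2 * k * Real.log k = k * (2 * Real.log k) := by ring
      _ < k * (k : ℝ) ^ (1 / (4 * (D : ℝ))) := mul_lt_mul_of_pos_left h4 hk0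
  · have h5 : 1 + 1 / (4 * (D : ℝ)) ≤ 3 / 2 := by
      have : 1 / (4 * (D : ℝ)) ≤ 1 / 4 := by
        apply one_div_le_one_div_of_le (by norm_num); linarith
      linarith
    have h6 : (k : ℝ) ^ (1 + 1 / (4 * (D : ℝ))) ≤ (k : ℝ) ^ (3 / 2 : ℝ) :=
      Real.rpow_le_rpow_of_exponent_le (by linarith) h5
    have h7 : (k : ℝ) ^ (3 / 2 : ℝ) = k * Real.sqrt k := by
      rw [show (3 / 2 : ℝ) = 1 + 1 / 2 by norm_num, Real.rpow_add hk0, Real.rpow_one,
        Real.sqrt_eq_rpow]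
    have h8 : Real.sqrt k ≤ k / 4 := by
      rw [Real.sqrt_le_left (by linarith)]
      nlinarith
    have h9 : k * Real.sqrt k ≤ k * (k / 4) := mul_le_mul_of_nonneg_left h8 hk0.le
    nlinarith

theorem result : ∀ D : ℕ, 1 ≤ D → ∃ k₀ : ℕ, ∀ k : ℕ, k₀ ≤ k →
    3 ≤ k ∧ 2 * k * Real.log k < (k : ℝ) ^ (1 + 1 / (4 * (D : ℝ))) ∧
    (k : ℝ) ^ (1 + 1 / (4 * (D : ℝ))) < ((k : ℝ) - 1) ^ 2 ∧
    ∀ d : ℝ, 2 * k * Real.log k < d → d ≤ (k : ℝ) ^ (1 + 1 / (4 * (D : ℝ))) →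
      Tendsto (fun n : ℕ => Pr n (d / n) (fun G => ¬ G.Colorable k ∧ ¬ SoSRefutes G k D)) atTop
        (𝓝 1) := by
  intro D hD
  obtain ⟨k₀, h0⟩ := main D hD
  obtain ⟨k₁, h1⟩ := range_ok D hD
  refine ⟨max k₀ k₁, fun k hk => ?_⟩
  obtain ⟨a, b, c⟩ := h1 k (le_trans (le_max_right _ _) hk)
  exact ⟨a, b, c, fun d hd1 hd2 => h0 k (le_trans (le_max_left _ _) hk) d hd1 hd2⟩

end Pool.Agent.Results.MP_211dc5_lc.AllConstantDegrees
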